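import Mathlib

/-!
# A small 5-chromatic unit-distance graph in a normed plane

The unit ball is the octagon `|x| ≤ 4, |y| ≤ 4, |x| + |y| ≤ 6`.  We exhibit a unit-distance graph
on 48 integer points with chromatic number exactly `5`.  Non-4-colourability is proved by a
decision tree that is checked by kernel computation.
-/

namespace Pool.Agent.Results.MP_a2d1c1_co.OctagonFiveChromatic

open Pointwise

/-- The octagonal unit ball. -/
def oct : Set (ℝ × ℝ) := {p | |p.1| ≤ 4 ∧ |p.2| ≤ 4 ∧ |p.1| + |p.2| ≤ 6}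

theorem convex_oct : Convex ℝ oct := by
  intro p hp q hq a b ha hb hab
  obtain ⟨p1, p2, p3⟩ := hp
  obtain ⟨q1, q2, q3⟩ := hq
  have ea : ∀ u v : ℝ, |a * u + b * v| ≤ a * |u| + b * |v| := fun u v => by
    calc |a * u + b * v| ≤ |a * u| + |b * v| := abs_add_le _ _
      _ = a * |u| + b * |v| := by rw [abs_mul, abs_mul, abs_of_nonneg ha, abs_of_nonneg hb]
  have e1 := ea p.1 q.1
  have e2 := ea p.2 q.2
  refine ⟨?_, ?_, ?_⟩
  · show |a * p.1 + b * q.1| ≤ 4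
    nlinarith
  · show |a * p.2 + b * q.2| ≤ 4
    nlinarith
  · show |a * p.1 + b * q.1| + |a * p.2 + b * q.2| ≤ 6
    nlinarith

theorem isCompact_oct : IsCompact oct := by
  have hclosed : IsClosed oct := by
    have h1 : Continuous fun p : ℝ × ℝ => |p.1| := continuous_fst.abs
    have h2 : Continuous fun p : ℝ × ℝ => |p.2| := continuous_snd.abs
    exact (isClosed_le h1 continuous_const).inter
      ((isClosed_le h2 continuous_const).inter (isClosed_le (h1.add h2) continuous_const))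
  refine (isCompact_closedBall (0 : ℝ × ℝ) 4).of_isClosed_subset hclosed ?_
  intro p hp
  rw [mem_closedBall_zero_iff, Prod.norm_def]
  exact max_le hp.1 hp.2.1

theorem ball_subset_oct : Metric.ball (0 : ℝ × ℝ) 1 ⊆ oct := by
  intro p hp
  rw [mem_ball_zero_iff, Prod.norm_def, max_lt_iff] at hp
  obtain ⟨h1, h2⟩ := hp
  rw [Real.norm_eq_abs] at h1 h2
  exact ⟨by linarith, by linarith, by linarith⟩

theorem oct_mem_nhds : oct ∈ nhds (0 : ℝ × ℝ) :=
  Filter.mem_of_superset (Metric.ball_mem_nhds _ one_pos) ball_subset_oct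

theorem interior_oct : (interior oct).Nonempty :=
  ⟨0, mem_interior_iff_mem_nhds.2 oct_mem_nhds⟩

theorem neg_mem_oct : ∀ p ∈ oct, -p ∈ oct := by
  intro p hp
  obtain ⟨h1, h2, h3⟩ := hp
  refine ⟨?_, ?_, ?_⟩ <;> simp only [Prod.fst_neg, Prod.snd_neg, abs_neg] <;> assumption

/-- Points of the boundary octagon have norm one. -/
theorem gauge_eq_one_of (p : ℝ × ℝ) (hp : p ∈ oct)
    (hb : |p.1| = 4 ∨ |p.2| = 4 ∨ |p.1| + |p.2| = 6) : gauge oct p = 1 := by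
  refine le_antisymm (gauge_le_one_of_mem hp) ?_
  by_contra hlt
  rw [not_le] at hlt
  obtain ⟨r, hr0, hr1, hx⟩ := exists_lt_of_gauge_lt (absorbent_nhds_zero oct_mem_nhds) hlt
  rw [Set.mem_smul_set_iff_inv_smul_mem₀ hr0.ne'] at hx
  obtain ⟨h1, h2, h3⟩ := hx
  have e1 : |(r⁻¹ • p).1| = r⁻¹ * |p.1| := by
    rw [Prod.smul_fst, smul_eq_mul, abs_mul, abs_of_pos (inv_pos.2 hr0)]
  have e2 : |(r⁻¹ • p).2| = r⁻¹ * |p.2| := by
    rw [Prod.smul_snd, smul_eq_mul, abs_mul, abs_of_pos (inv_pos.2 hr0)]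
  rw [e1] at h1 h3
  rw [e2] at h2 h3
  have hr : 1 < r⁻¹ := (one_lt_inv₀ hr0).2 hr1
  rcases hb with h | h | h
  · rw [h] at h1; linarith
  · rw [h] at h2; linarith
  · have : r⁻¹ * (|p.1| + |p.2|) ≤ 6 := by linarith
    rw [h] at this; linarith

/-- x-coordinates -/
def X : Fin 48 → ℤ := ![-5, -5, -4, -4, -4, -4, -3, -3, -3, -2, -2, -2, -2, -1, -1, -1, -1, -1, 0, 0, 0, 0, 0, 1, 1, 1,
  1, 1, 2, 2, 2, 2, 2, 2, 3, 3, 3, 4, 4, 4, 4, 5, 5, 5, 5, 5, 6, 6]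

/-- y-coordinates -/
def Y : Fin 48 → ℤ := ![-3, 5, -4, 0, 2, 6, -1, 1, 3, -2, 0, 2, 4, -3, -1, 1, 3, 5, -2, 0, 1, 2, 4, -3, -1, 1, 3, 5, -4,
  -2, 0, 2, 4, 6, -1, 1, 3, -4, 0, 2, 6, -3, -1, 1, 3, 5, -2, 4]

/-- a proper colouring with five colours -/
def col5 : Fin 48 → Fin 5 := ![3, 3, 2, 3, 3, 4, 4, 0, 1, 4, 4, 0, 1, 4, 4, 2, 0, 4, 4, 4, 2, 2, 2, 1, 1, 2, 3, 4, 3, 3, 1, 2,
  3, 4, 1, 3, 3, 3, 0, 0, 4, 2, 4, 4, 0, 1, 4, 1]

/-- packed adjacency table, 64 bits per vertex -/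
def tbl : ℕ :=
  102125399897441229268177873883801248338502674873596887422009028433385593364690574143211687752308383864338571901945573522761677379650148093813945575859486763119176389884609660733898353604082524007156576983410898566730134993848098516604571553005162714305620167697917364352510619695217451411514054750607219986368377233733512497051789193897438812992968108826861828975466920743029396276292531518036868960113401815017835915404770260467008387293047530727800081093119135491703081989953893686482354417657520530917396273466135300619932992531421952186612306593633923430845273507666487652873203871534153796385830867034851506873380882467604266774132872349139642405959677741233244365389471189533498862323675698365179672229827917536664127715532450057261938476391225886104636591235219658725144883903672967350806028822649920606306192209038219179672947218910523668394493301586051209802469591349844235846889630792334130301592033409655936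

/-- bit mask of the neighbours of vertex `v` -/
def nb (v : ℕ) : ℕ := (tbl >>> (64 * v)) % 18446744073709551616

/-- decision trees -/
inductive DT : Type
  | x : DT
  | n : ℕ → DT → DT → DT → DT → DT

/-- Checker: `a b c d` are the masks of vertices that may not receive colour `0 1 2 3`. -/
def chk : DT → ℕ → ℕ → ℕ → ℕ → Bool
  | DT.x, _, _, _, _ => false
  | DT.n v t0 t1 t2 t3, a, b, c, d =>
    Nat.blt v 48 &&
    (a.testBit v || chk t0 (a ||| nb v) b c d) &&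
    (b.testBit v || chk t1 a (b ||| nb v) c d) &&
    (c.testBit v || chk t2 a b (c ||| nb v) d) &&
    (d.testBit v || chk t3 a b c (d ||| nb v))

theorem chk_sound (f : ℕ → Fin 4)
    (hf : ∀ v w, v < 48 → (nb v).testBit w = true → f v ≠ f w) :
    ∀ (t : DT) (a b c d : ℕ), chk t a b c d = true →
      (∀ w, a.testBit w = true → f w ≠ 0) → (∀ w, b.testBit w = true → f w ≠ 1) →
      (∀ w, c.testBit w = true → f w ≠ 2) → (∀ w, d.testBit w = true → f w ≠ 3) → False := by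
  intro t
  induction t with
  | x => intro a b c d h; simp [chk] at h
  | n v t0 t1 t2 t3 ih0 ih1 ih2 ih3 =>
    intro a b c d h ha hb hc hd
    simp only [chk, Bool.and_eq_true, Bool.or_eq_true, Nat.blt_eq] at h
    obtain ⟨⟨⟨⟨hv, h0⟩, h1⟩, h2⟩, h3⟩ := h
    have key : ∀ (k : Fin 4) (m : ℕ), f v = k → (∀ w, m.testBit w = true → f w ≠ k) →
        ∀ w, (m ||| nb v).testBit w = true → f w ≠ k := by
      intro k m hk hm w hw
      rw [Nat.testBit_or, Bool.or_eq_true] at hw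
      rcases hw with hw | hw
      · exact hm w hw
      · intro he
        exact hf v w hv hw (hk.trans he.symm)
    have hcases : f v = 0 ∨ f v = 1 ∨ f v = 2 ∨ f v = 3 := by
      generalize f v = k
      fin_cases k <;> simp
    rcases hcases with hk | hk | hk | hk
    · rcases h0 with h0 | h0
      · exact ha v h0 hk
      · exact ih0 _ _ _ _ h0 (key 0 a hk ha) hb hc hd
    · rcases h1 with h1 | h1
      · exact hb v h1 hk
      · exact ih1 _ _ _ _ h1 ha (key 1 b hk hb) hc hd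
    · rcases h2 with h2 | h2
      · exact hc v h2 hk
      · exact ih2 _ _ _ _ h2 ha hb (key 2 c hk hc) hd
    · rcases h3 with h3 | h3
      · exact hd v h3 hk
      · exact ih3 _ _ _ _ h3 ha hb hc (key 3 d hk hd)

open DT in
/-- the certificate -/
def cert : DT :=
  (n 44 (n 42 x (n 25 x x (n 23 x x x (n 13 x x x (n 30 x (n 24 (n 16 x x x (n 7 x (n 17 x x x (n
  6 x (n 41 x x (n 35 x (n 27 x x x (n 11 x x (n 31 (n 10 x x (n 14 x x (n 18 x x x (n 26 x x x (n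
  32 x x x (n 12 x (n 19 (n 8 x x x x) x x x) x x)))) x) x) x x x) x)) x x) x) x x)) x x)) x x (n
  26 x x (n 16 (n 14 x x x (n 10 (n 31 x x (n 11 (n 9 x x x (n 29 x (n 43 (n 6 x (n 8 (n 41 x x (n
  35 x (n 18 x x x (n 27 x x x (n 45 x x x x))) x x) x) x x x) x x) x x x) x x)) x x x) x) x x x))
  x x x) x)) (n 38 (n 28 x x x (n 19 x (n 32 x x x (n 12 (n 10 x (n 3 x x (n 21 x x x (n 18 x (n
  35 x x (n 14 (n 7 (n 24 x x x (n 37 x x x x)) x x x) x x x) x) x x)) x) x x) x x x)) x x)) (n 32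
  x x x (n 19 (n 12 x (n 10 (n 3 x x (n 20 (n 28 x x x (n 31 x x (n 14 (n 33 x x x (n 21 (n 16 x
  (n 6 x x x x) x x) x x x)) x x x) (n 18 (n 7 x (n 17 x x x x) x x) x x x))) x x x) x) x x x) x
  x) x x x)) (n 26 x x x (n 24 (n 7 x (n 17 x x x (n 43 x (n 41 x x x x) x x)) x x) x x x)) x)
  x))) (n 23 x x (n 13 x x (n 17 x (n 7 (n 24 x x x (n 26 x x (n 30 x (n 16 (n 14 x x x (n 35 x (n
  27 x x (n 11 (n 31 x x (n 18 x x x (n 3 x (n 9 x x (n 21 (n 4 x x x x) x x x) x) x x)) x) x x x)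
  x) x x)) x x x) x (n 35 x (n 16 (n 14 x x x (n 22 x x (n 4 (n 27 x x (n 20 x x x (n 3 x (n 19 x
  x x (n 6 x (n 0 x (n 10 (n 31 x x (n 12 x x x x) x) x x x) x x) x x)) x x)) x) x x x) x)) x x x)
  x (n 14 (n 16 x (n 28 x x (n 8 x (n 27 x x (n 6 (n 22 x (n 39 (n 10 (n 19 x x x (n 3 (n 4 x x (n
  21 x x x (n 33 x x (n 31 x x x (n 40 x x x x)) x)) x) x x x)) x x x) x x x) (n 4 x x x (n 21 x x
  (n 18 x (n 11 (n 5 x x x x) x x x) x x) x)) x) x x x) x) x x) x) x x) x x x))) x)) x x x) x x)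
  x) x)) x (n 16 (n 24 x (n 25 x (n 23 x x (n 17 x x x (n 6 x x x (n 38 (n 21 x x (n 20 x (n 3 x x
  x (n 19 x (n 18 x (n 35 x x x (n 14 x x (n 28 x x x x) x)) x x) x x)) x x) x) (n 20 (n 8 (n 19 x
  x x (n 39 x x (n 21 (n 32 x x (n 12 (n 27 x x x (n 35 x (n 11 (n 22 (n 7 x x (n 26 x x x (n 10 x
  (n 31 x x (n 14 x x x x) x) x x)) x) x x x) x x x) x x)) x x x) x) x x x) x)) x (n 14 x x x (n
  26 x x x x)) x) x x x) x (n 26 x x (n 14 x x x (n 35 x (n 7 (n 18 x x (n 21 (n 8 (n 19 x (n 32 x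
  x (n 3 x x x (n 4 x x (n 22 x x x (n 30 x (n 39 x x (n 10 (n 12 x x x x) x x x) x) x x)) x)) x)
  x x) x x x) x x x) x) x x x) x x)) x)))) x) (n 23 x (n 13 x x x (n 7 (n 6 x x x (n 38 (n 21 x x
  (n 3 x (n 19 x x x (n 39 (n 18 x x x (n 35 x x (n 14 x x x (n 22 x (n 30 x x (n 37 x x x x) x) x
  x)) x)) x x x)) x x) x) x (n 21 (n 26 x x x (n 14 x x (n 35 x x x (n 18 x (n 31 (n 10 x x (n 30
  x (n 22 x x x x) x x) x) x x x) x x)) x)) x x x) (n 26 x x (n 14 x x x (n 35 x x (n 18 x (n 3 x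
  x (n 21 (n 20 (n 2 (n 10 x x x (n 22 x (n 30 x x (n 19 (n 32 x (n 12 x x x x) x x) x x x) x) x
  x)) x x x) x x x) x x x) x) x x) x)) x))) x x x)) x x) x) x x) (n 24 (n 25 x (n 23 x x (n 35 x x
  x (n 17 x x x (n 7 x x (n 26 x x x (n 27 x x (n 13 x x x (n 30 x x (n 43 x x (n 8 (n 14 x x (n 1
  (n 6 x x x (n 41 x (n 11 x (n 31 (n 18 x x x x) x x x) x (n 9 (n 21 x x (n 3 (n 4 x (n 20 x x x
  x) x x) x x x) x) x x x)) x x)) x x x) x) x x x) x) x)) x)) x))) x) (n 23 x (n 13 x x x (n 30 x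
  x (n 7 x (n 17 x x x (n 6 x x x (n 41 x x x (n 35 x x (n 43 x (n 32 x x x (n 11 x (n 27 x x x (n
  45 (n 31 x x (n 29 x x x (n 10 (n 22 x x x (n 33 x x x (n 9 (n 21 x x (n 38 (n 19 x (n 4 x x x
  x) x x) x x x) x) x x x))) x x x)) x) x x x)) x x)) x x) x)))) x x) x)) x x) x) x x x) x (n 21
  (n 25 x (n 23 x x (n 6 x x x x) x) (n 23 x (n 6 x x x x) x x) x) x (n 33 x (n 31 (n 14 x x (n 26
  x x x (n 35 x (n 18 x x x (n 23 x x (n 25 x (n 10 x (n 30 x x (n 11 x (n 24 (n 6 x x x x) x x x)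
  x x) x) x x) x x) x)) x x)) x) x (n 14 (n 25 x (n 23 x x (n 35 x (n 17 x x x (n 4 x (n 20 (n 39
  x x x (n 19 (n 22 x x (n 30 x (n 7 (n 24 x (n 18 x x x (n 11 (n 5 x x x x) x x x)) x x) x x x) x
  x) x) x x x)) x x x) x x)) x x) x) (n 23 x (n 35 x x (n 13 x x x (n 6 (n 24 x (n 7 (n 4 x (n 22
  x x x (n 19 (n 39 x x x x) x x x)) x (n 22 x (n 30 x x (n 19 (n 38 x x x (n 26 x x (n 39 x x x
  (n 3 x (n 18 x x x x) x x)) x)) x x x) x) x x)) x x x) x x) x x x)) x) x x) x) x x x) x) x x) (n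
  25 x (n 23 x x (n 35 x (n 17 x x x (n 6 (n 24 x (n 26 x x (n 14 (n 7 (n 18 x x (n 31 x (n 29 x x
  (n 39 (n 20 x (n 38 (n 3 (n 4 x x (n 22 x x x (n 40 x x x x)) x) x x x) x x x) x x) x x x) x) x
  x) x) x x x) x x x) (n 8 x x (n 14 (n 27 x x x (n 31 x (n 10 (n 29 x x (n 39 (n 9 (n 11 x x (n
  30 x (n 18 (n 38 x (n 20 x x x x) x x) x x x) x x) x) x x x) x x x) x) x x x) (n 11 (n 18 x x x
  x) x x x) x)) x x x) x)) x x) x x x)) x x) x) (n 23 x (n 35 x x (n 14 (n 13 x x x (n 6 (n 24 x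
  (n 7 (n 18 x (n 31 x x (n 29 x (n 9 (n 11 x x x (n 27 x (n 33 x (n 8 x x x (n 26 x x (n 38 (n 19
  x (n 22 x x x (n 10 (n 20 x x (n 4 x x x x) x) x x x)) x x) x x x) x)) x x) x x)) x x x) x x) x)
  x x) x x x) x x) x x x)) x x x) x) x x) x)))) x (n 23 x (n 16 (n 25 (n 42 x x x (n 24 x (n 30 x
  (n 14 x x (n 35 x x x (n 27 x (n 28 (n 8 x x x (n 19 x (n 26 (n 45 x x (n 43 x x x (n 32 x x (n
  38 x x x (n 12 x x x (n 3 x x (n 21 (n 4 x x x (n 10 x x (n 18 x (n 31 (n 22 (n 11 x x x (n 13 x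
  x x (n 7 x x (n 29 x (n 17 x (n 1 x x x x) x x) x x) x))) x x x) x x x) x x) x)) x x x) x))) x))
  x) x x x) x x)) x x x) x x)) (n 26 (n 35 x x (n 38 x x (n 32 x x x (n 28 (n 19 x (n 12 x x (n 3
  x x x (n 21 (n 4 x x (n 10 x x x (n 18 x (n 31 (n 11 x x (n 20 (n 22 (n 43 x x (n 29 x (n 8 x x
  (n 13 x x (n 7 x x x (n 1 x (n 17 x x x x) x x)) x) x) x x) x) x x x) x x x) x) x x x) x x)) x)
  x x x)) x) x x) x x x)) (n 32 x x (n 43 x x x (n 45 x (n 27 x x x (n 11 (n 31 x x (n 10 x x x (n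
  22 (n 39 x x (n 21 (n 19 x (n 12 x x x x) x x) x x x) x) x x x)) x) x x x)) x x)) x)) x) x x x))
  x (n 13 x x (n 7 x x x (n 26 (n 10 x x (n 17 x (n 31 (n 11 x x (n 1 x x x x) x) x x x) x x) x) x
  x x)) x)) x x)) x x (n 27 x (n 13 x x (n 17 x (n 7 (n 26 x x x (n 14 x x (n 24 x (n 35 x x x (n
  6 x x (n 42 (n 31 x x x (n 33 x (n 8 (n 18 x (n 3 x x x (n 19 x (n 22 x x (n 10 (n 2 x x x x) x
  x x) x) x x)) (n 38 (n 11 (n 21 x x x (n 4 (n 3 x (n 19 x x x (n 28 x (n 30 x x x (n 37 x x x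
  x)) x x)) x x) x x x)) x x x) x x x) x) x x x) x x)) x x x) x)) x x) x)) x x x) x x) x) x x)) (n
  25 (n 42 x x x (n 24 (n 26 x x x (n 14 (n 30 (n 10 x x (n 31 x (n 29 x x x (n 12 x x x (n 17 x x
  x (n 33 (n 21 x x (n 38 (n 19 x (n 4 x x x x) x x) x x x) x) x x x)))) x x) x) x x (n 13 x x (n
  7 x (n 17 x x x (n 20 (n 38 x x (n 3 x x x (n 21 (n 18 x x x x) x x x)) x) x x x)) x x) x)) x (n
  35 x x x (n 27 x (n 8 x x x x) x x)) x)) x x x)) x x (n 27 x (n 13 x x (n 17 x (n 7 (n 24 x x x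
  (n 26 x x x x)) x x x) x x) x) x x)) x (n 35 x x (n 14 (n 26 x x x (n 25 (n 6 x x (n 42 x x x (n
  8 x (n 27 x x x (n 10 (n 30 x (n 22 x x x (n 19 (n 38 x x (n 28 x x x x) x) x x x)) x x) x (n 31
  x (n 29 x x x (n 21 (n 33 x x x x) x x x)) x x) x)) x x)) x) x x (n 13 x x (n 17 x (n 7 (n 24 x
  (n 27 x (n 8 x x (n 42 (n 45 (n 43 x x (n 1 x x (n 6 (n 11 (n 30 x (n 22 x x x (n 4 x x (n 9 x x
  x x) x)) x x) x x (n 31 x x (n 10 (n 30 x (n 32 x x x x) x x) x x x) x)) x x x) x) x) x x x) x x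
  x) x) x x) x x) x x x) x x) x))) x x x) x)) (n 26 (n 35 x (n 27 x x x (n 45 x x (n 24 x (n 43 x
  x x (n 41 (n 29 x (n 10 x x x (n 30 x (n 31 (n 11 x x (n 32 x x x x) x) x x x) x x)) (n 39 (n 21
  x x x (n 38 x (n 20 x x x x) x x)) x x x) x) x x x)) x (n 16 (n 43 x (n 25 (n 6 x (n 8 x x (n 14
  x x x (n 42 x (n 31 (n 41 (n 7 x (n 17 x x x (n 1 x x (n 11 x (n 30 x x x (n 10 x (n 9 x x (n 32
  x x (n 12 x x x (n 13 x x (n 3 x (n 19 (n 28 x x x x) x x x) x x) x)) x) x) x x)) x x) x)) (n 18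
  x x x (n 38 x (n 20 (n 13 x x x (n 30 x (n 10 x x x (n 22 (n 19 x x x (n 11 x x (n 32 x x x x)
  x)) x x x)) x x)) x x x) x x)) x) x x x) x x x) x x)) x) x x) x x x) x x) x x x)) x)) x (n 14 x
  x (n 27 x (n 8 x x x (n 25 (n 6 x (n 24 x x x (n 16 (n 42 x (n 45 x x (n 43 x (n 41 (n 31 (n 11
  x x (n 18 x (n 38 x x x (n 32 x x x x)) x x) x) x x (n 10 x (n 30 x x x (n 32 x x (n 12 x x x x)
  x)) x x)) x x x) x x) x) x x) x x x)) x x) x x x)) x x) x)) x x (n 6 (n 24 x (n 16 x x x (n 35 x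
  (n 27 x x x (n 25 x (n 17 x x x (n 8 x x (n 14 (n 31 x (n 10 (n 30 x (n 33 (n 39 x x (n 21 x x x
  (n 29 x x x x)) x) x x x) x x) x x x) (n 11 (n 30 x (n 18 x x x (n 21 x x (n 39 (n 4 x (n 20 x x
  x x) x x) x x x) x)) x x) x x x) x) x x x) x)) x x)) x x)) x x) (n 24 (n 16 x x x (n 35 x (n 27
  x x x (n 25 (n 8 x x (n 14 (n 41 x x x (n 39 x (n 20 (n 38 x (n 33 (n 9 x (n 30 (n 10 x (n 11 x
  x (n 31 x x x (n 18 (n 32 x x x (n 19 (n 17 x (n 7 x x (n 22 x x x (n 29 x x (n 4 x x (n 13 x x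
  x (n 0 x x x x)) x) x)) x) x x) x x x)) x x x)) x) x x) x x x) (n 11 x (n 30 (n 10 x (n 21 x x x
  (n 29 x x x x)) x x) x x x) x x) (n 29 x x (n 21 x x x x) x)) x x x) x x) x x x) (n 30 (n 10 x
  (n 22 x x x (n 29 x x x (n 46 x x x x))) x x) (n 10 (n 11 x x (n 22 x x x (n 32 x x x (n 9 x x x
  (n 21 (n 18 x x x (n 31 x (n 29 x x x x) x x)) x x x)))) x) x x x) x x) x)) x x x) x) x x x)) x
  x)) x x x) x (n 35 x (n 16 (n 24 x (n 14 x x (n 27 x x x (n 20 (n 38 x (n 39 x x (n 21 (n 42 (n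
  25 x (n 17 x x x (n 31 x (n 10 (n 22 x x x (n 30 x (n 19 (n 8 x x x x) x x x) x x)) x x x) x x))
  x x) x x (n 28 (n 19 x x x (n 22 (n 7 x x (n 10 x (n 31 (n 30 x x x (n 13 x x x x)) x x x) x x)
  x) x x x)) x x x)) x x x) x) x x) (n 38 (n 21 x x (n 18 x x x (n 3 x x x x)) x) x x x) x x)) x)
  x x) x x x) x (n 27 x (n 25 (n 8 x x (n 14 (n 16 x (n 24 (n 41 x (n 43 x x (n 45 (n 32 x (n 38
  (n 21 x x (n 39 x x x (n 19 x x x x)) x) x x x) x (n 30 (n 10 x (n 22 x x (n 39 x x x (n 29 x x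
  x x)) x) x x) x x x)) x x x) x) x x) x x x) x x) x x x) x) x x x) x x)))) (n 26 (n 25 (n 42 x (n
  24 x x x (n 33 (n 16 x (n 35 x x (n 14 x x x (n 31 x x (n 10 x (n 29 x x x (n 21 x x (n 6 x x x
  x) x)) x x) x)) x) x x) (n 16 (n 12 x x (n 10 x (n 30 x x x (n 32 x (n 38 x x (n 13 x x (n 7 x
  (n 17 x x x (n 31 (n 18 x x x (n 21 (n 39 x x (n 22 (n 11 x x (n 1 x x x x) x) x x x) x) x x x))
  x x x)) x x) x) x) x x)) x x) (n 30 x (n 10 x x (n 31 (n 11 x x (n 32 x x x x) x) x x x) x) x (n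
  13 x x (n 3 x (n 19 (n 39 x x (n 22 x (n 7 x x x x) x x) x) x x x) x x) x))) x x x) x (n 35 x (n
  16 (n 27 x x x (n 45 x x (n 31 (n 43 x (n 47 x x (n 38 x (n 32 x x x (n 30 x (n 19 (n 10 x x (n
  22 x x x (n 11 x x (n 18 x x x (n 9 x x x (n 29 x x x x))) x)) x) x x x) x x)) x x) x) x x) x x
  x) x)) x x x) (n 14 x x x (n 47 (n 31 x x (n 10 x (n 12 x x x x) x x) x) (n 38 x x (n 21 (n 32 x
  x x (n 28 (n 30 x (n 10 x x (n 31 (n 19 x (n 12 x x x x) x x) x x x) x) x x) x x x)) x x x) x) x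
  x)) x))) x x) (n 27 x x x (n 17 x x x (n 7 x x (n 13 x x x (n 8 x x (n 14 x x x (n 6 (n 16 x (n
  30 (n 24 x x x (n 35 x x (n 43 x x (n 42 (n 1 (n 45 x (n 31 x x (n 10 x (n 22 x x x (n 11 x (n
  29 x x x (n 21 x x (n 9 x x x x) x)) x x)) x x) x) x x) x x x) x x x) x) x)) x x x) x x) x x x))
  x)) x))) x x) x x (n 25 (n 42 x (n 24 (n 35 x (n 16 x x x (n 27 x x x (n 41 x x (n 43 x (n 33 (n
  29 x x (n 31 x x x (n 21 x x x (n 39 x (n 9 x (n 30 (n 10 x (n 11 x x (n 18 (n 17 x (n 7 x x (n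
  22 x x x (n 19 (n 4 x x (n 14 (n 13 x x x (n 0 x x x x)) x x x) x) x x x)) x) x x) x x x) x) x
  x) x x x) x x) x x))) (n 31 x x (n 21 x x (n 11 x (n 9 x x x x) x x) x) x)) (n 39 x x (n 29 x x
  x (n 21 (n 46 (n 30 x (n 11 x x (n 9 x x x x) x) x x) x x x) x x x)) x) x x) x x) x))) (n 14 (n
  41 x (n 43 x x (n 7 x (n 17 x x x (n 31 x x (n 10 (n 30 x x x (n 22 x x x x)) (n 12 x x x (n 32
  x (n 19 (n 11 x x x (n 30 (n 38 x x (n 18 (n 21 x x x (n 29 x x x x)) x x x) x) x x x)) x x x) x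
  x)) x x) x)) (n 13 x x x (n 30 (n 0 x (n 10 x x (n 31 x x x (n 12 x (n 29 x (n 32 x x x (n 19 (n
  3 x x (n 33 (n 21 x x x (n 39 x x (n 9 x x (n 4 x (n 17 x x x x) x x) x) x)) x x x) x) x x x)) x
  x) x x)) x) x x) x x x)) x) x) x x) x x x) x) x x x) x x) (n 27 x x x (n 17 x x x (n 42 (n 24 x
  (n 31 x (n 39 (n 33 x x x (n 16 (n 21 x x (n 6 x x x x) x) x x x)) x (n 29 x x x (n 21 (n 9 x x
  (n 4 x (n 11 (n 20 (n 33 x x x (n 16 (n 14 x x (n 35 x (n 8 (n 19 x x x (n 22 (n 40 x x x x) x x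
  x)) x x x) x x) x) x x x)) x x x) x x x) x x) x) x x x)) x) (n 14 (n 16 x x x (n 11 (n 30 x (n
  10 (n 12 x x x (n 32 x x (n 43 (n 8 x x (n 6 (n 41 x x (n 35 x (n 45 x x x x) x x) x) x x x) x)
  x x x) x)) x x x) x x) x x x)) x x x) x) x x) x x x))) x x))) (n 25 (n 42 x (n 35 x (n 27 x x (n
  31 (n 45 x x x (n 24 (n 16 x x x (n 26 x x (n 14 x x x x) x)) x x (n 16 (n 11 x (n 30 x x (n 32
  x x x (n 9 x x x (n 13 x x x (n 28 (n 19 x (n 38 x x (n 47 x x x x) x) x x) x x x)))) x) x x) x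
  x x))) x (n 24 (n 26 x x (n 16 x x x (n 14 (n 39 x (n 29 x x x (n 33 (n 21 x x (n 9 x (n 4 x x x
  (n 19 (n 3 x (n 11 x x x (n 22 x x (n 30 (n 10 x (n 18 (n 20 (n 43 x (n 32 x x (n 6 x (n 17 x (n
  7 x x x (n 0 x x (n 13 x x x x) x)) x x) x x) x) x x) x x x) x x x) x x) x x x) x)) x x) x x x))
  x x) x) x x x)) x (n 29 x (n 43 x x x (n 41 x x (n 23 x x x (n 10 (n 30 x (n 11 x x x (n 18 (n
  38 x (n 19 (n 21 x x (n 9 x x x x) x) x x x) x x) x x x)) x x) x x x)) x)) x x)) x x x)) x) x x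
  (n 16 (n 14 x x x (n 33 x (n 39 (n 12 x x x (n 19 x (n 8 x x x x) x x)) x x x) x x)) x x x)) (n
  17 x (n 45 (n 26 x x (n 7 x x x (n 24 (n 16 x x x (n 11 x (n 14 (n 13 x x (n 30 (n 10 x (n 0 x x
  x x) x x) x x x) x) x x x) x x)) x x x)) x) x x x) x x)) x) (n 23 x x x (n 27 x (n 24 (n 26 x x
  (n 8 x x x (n 14 (n 41 x (n 43 x x x (n 45 (n 32 x (n 19 (n 38 x x x x) x x x) (n 30 (n 10 x (n
  22 x x x (n 39 x x (n 29 x x x x) x)) x x) x x x) x) x x x)) x x) x x x)) x) x x (n 14 (n 26 x x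
  (n 7 x (n 16 x (n 17 x x x (n 31 x x (n 11 (n 30 x x (n 18 x x x (n 28 x x x (n 33 (n 21 x x (n
  6 x x x x) x) x x x))) x) x x x) x)) x x) x x) x) x x (n 8 x x (n 26 (n 6 x (n 16 (n 45 x x x (n
  30 x (n 10 x x (n 31 (n 11 x x (n 32 x x x (n 9 x x x (n 29 x (n 12 x (n 19 (n 39 x x (n 33 x x
  x x) x) x x x) x x) x x))) x) x x x) x) (n 10 x (n 11 (n 31 x x (n 29 x x x (n 12 x x x (n 13 x
  x x (n 28 (n 19 x (n 32 x x x x) x x) x x x)))) x) x x x) x x) x)) x x x) x x) x x x) x))) x x))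
  (n 23 x x (n 24 (n 26 x x (n 14 (n 16 x (n 6 x x x (n 8 x (n 27 x x (n 41 x (n 43 x x x (n 28 x
  x (n 30 (n 46 x (n 39 x x x (n 19 (n 29 x x (n 31 x x x (n 21 (n 11 x (n 18 x x (n 3 x x x (n 10
  x (n 2 x x x x) x x)) x) x x) x x x)) x) x x x)) x x) x x x) (n 19 (n 38 x (n 32 x x (n 30 (n 47
  (n 33 x x (n 31 x x x (n 21 (n 10 x (n 12 x x x x) x x) x x x)) x) x x x) x x x) x) x x) x x
  x))) x x) x) x x)) x x) x x x) x) x x (n 6 x (n 16 (n 14 x x (n 26 (n 8 x x x (n 19 (n 28 x x x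
  (n 38 x (n 31 (n 18 x x (n 11 x (n 30 x x (n 9 x x x x) x) x x) x) x x (n 10 x (n 30 x x (n 22 x
  x x x) x) x x)) x x)) (n 38 x x x (n 32 x x (n 30 x (n 10 x x x (n 12 x x x x)) x x) x)) x x)) x
  x x) x) x x x) x x)) x)) x x) (n 27 x x (n 17 x x x (n 42 (n 14 (n 26 x x (n 7 (n 8 x x x (n 39
  (n 19 x (n 4 x x (n 21 x x x (n 38 (n 22 x x x (n 35 x (n 16 x x x (n 18 x x (n 31 x (n 40 x x x
  x) x x) x)) x x)) x x x)) x) x x) (n 19 (n 24 x x x (n 16 x (n 35 x x x (n 20 (n 22 x x (n 30 (n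
  11 x (n 31 x x (n 18 x x x x) x) x x) x x x) x) x x x)) x x)) x x x) x (n 24 x (n 16 x x x (n 35
  x (n 22 x x (n 4 x (n 19 (n 20 (n 5 (n 11 x x x (n 18 x x (n 31 x (n 21 (n 29 x x (n 9 x x x x)
  x) x x x) x x) x)) x x x) x x x) x x x) x x) x) x x)) x x))) x x x) x) x (n 31 x (n 26 (n 7 x x
  (n 13 x x x (n 8 x x x (n 45 x x x (n 35 x (n 43 x x (n 29 x x x (n 10 x x (n 23 x x x (n 41 (n
  30 x (n 32 x x x (n 11 (n 18 x x x (n 28 x x x (n 12 (n 19 x (n 39 (n 21 x x (n 3 x x x x) x) x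
  x x) x x) x x x))) x x x)) x x) x x x)) x)) x) x x)))) x) x x x) x x) (n 35 x (n 16 (n 8 (n 26 x
  x (n 7 (n 12 (n 30 x (n 10 x x x (n 22 x x (n 23 x x (n 28 x x (n 6 x x x (n 24 x (n 20 (n 39 x
  x x (n 4 x (n 19 x x x x) x x)) (n 4 (n 21 x x (n 18 x x x (n 3 x x x x)) x) x x x) x x) x x))
  x) x) x)) (n 22 x x x (n 19 x (n 28 x x x x) x x)) x) x (n 31 x (n 33 x x x x) x x) (n 19 x (n 3
  x x (n 18 x x x (n 21 (n 38 x x x x) x x x)) x) x x)) x x x) x) x x x) x x x) x x)) x x x)) x)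
  (n 27 x (n 13 x x x (n 6 (n 8 x x x (n 3 (n 19 x (n 20 x x (n 12 x x x (n 32 x x (n 24 x (n 7 (n
  16 x x x (n 35 x x (n 14 (n 22 x x x (n 4 x x x x)) x x x) x)) x x x) x (n 11 (n 30 x (n 16 x x
  x x) x x) x x x)) x)) x) x x) (n 16 x x x (n 24 x (n 35 x x (n 19 (n 7 (n 14 (n 18 x x x (n 21 x
  x (n 38 x (n 39 x x x (n 22 x (n 29 x (n 31 x x (n 11 (n 30 x x (n 4 x x x (n 9 x x x x)) x) x x
  x) x) x x) x x)) x x) x)) x x x) x x x) x x x) x) x x)) (n 21 x x x (n 20 (n 39 x x (n 29 x (n 9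
  (n 7 (n 26 x x (n 14 (n 38 x (n 18 x x x x) x x) x x x) x) (n 24 x x x (n 11 x x (n 30 x (n 16 x
  x x x) x x) x)) x x) x x x) x x) x) x x x)) x)) (n 23 x x x (n 35 x x (n 20 (n 24 (n 26 x x (n
  38 x (n 16 x x x (n 14 (n 7 x (n 17 x x x (n 41 x (n 43 x x x (n 32 x x (n 30 (n 10 x (n 31 x x
  (n 29 x x x x) x) x x) x x x) x)) x x)) x x) x x x)) x x) x) x x (n 39 x x (n 16 (n 14 x x x (n
  33 x (n 8 (n 26 x x (n 38 x (n 19 x x x (n 32 x x (n 30 x (n 10 (n 12 x x x x) x x x) x x) x)) x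
  x) x) x x x) x x)) x x x) x)) x (n 24 (n 26 x x (n 39 x x x (n 16 x x x (n 14 (n 7 x (n 22 (n 19
  x (n 10 x (n 30 x x (n 11 x x x (n 32 x x x x)) x) x x) x x) x x x) x x) x x x))) x) x x (n 39
  (n 16 (n 14 x x x (n 3 x (n 19 x x x (n 22 x (n 30 x x (n 10 (n 12 x x x x) x x x) x) x x)) x
  x)) x x x) x x x)) x) x)) x (n 23 x (n 8 (n 26 x x (n 14 x x x (n 35 x x (n 42 (n 24 x (n 7 (n
  16 (n 18 x (n 31 x x (n 3 x x (n 21 (n 38 x x x (n 19 x (n 22 x x x (n 10 (n 2 x x x x) x x x))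
  x x)) x x x) x) x) x (n 38 (n 21 x x (n 3 x (n 19 x x x (n 22 x (n 30 x x (n 37 x x x x) x) x
  x)) x x) x) x x x)) x x x) x x x) x x) x x x) x)) x) x x x) x x))) x x) x))

theorem cert_ok : chk cert (nb 15) (nb 34) (nb 36) 0 = true := by
  decide +kernel

theorem nb_lt : ∀ v : Fin 48, nb v < 2 ^ 48 := by decide +kernel

theorem nb_symm : ∀ v w : Fin 48, (nb v).testBit w = true → (nb w).testBit v = true := by
  decide +kernel

theorem nb_irrefl : ∀ v : Fin 48, ¬ (nb v).testBit v = true := by decide +kernel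

theorem nb_dist : ∀ v w : Fin 48, (nb v).testBit w = true →
    (|X v - X w| ≤ 4 ∧ |Y v - Y w| ≤ 4 ∧ |X v - X w| + |Y v - Y w| ≤ 6) ∧
    (|X v - X w| = 4 ∨ |Y v - Y w| = 4 ∨ |X v - X w| + |Y v - Y w| = 6) := by
  decide +kernel

theorem nb_col : ∀ v w : Fin 48, (nb v).testBit w = true → col5 v ≠ col5 w := by
  decide +kernel

theorem XY_inj : ∀ v w : Fin 48, X v = X w → Y v = Y w → v = w := by
  decide +kernel

/-- The graph on the index set. -/
def H : SimpleGraph (Fin 48) where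
  Adj v w := (nb v).testBit w = true
  symm := ⟨fun v w h => nb_symm v w h⟩
  loopless := ⟨fun v h => nb_irrefl v h⟩

theorem H_colorable_five : H.Colorable 5 :=
  ⟨SimpleGraph.Coloring.mk col5 fun {v w} h => nb_col v w h⟩

theorem exists_perm : ∀ a b c : Fin 4, a ≠ b → a ≠ c → b ≠ c →
    ∃ σ : Equiv.Perm (Fin 4), σ a = 0 ∧ σ b = 1 ∧ σ c = 2 := by
  decide +kernel

theorem H_not_colorable_four : ¬ H.Colorable 4 := by
  rintro ⟨C⟩
  have hv : ∀ v w : Fin 48, (nb v).testBit w = true → C v ≠ C w := fun v w h => C.valid h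
  have t1 : (nb 15).testBit 34 = true := by decide +kernel
  have t2 : (nb 15).testBit 36 = true := by decide +kernel
  have t3 : (nb 34).testBit 36 = true := by decide +kernel
  obtain ⟨σ, s0, s1, s2⟩ := exists_perm (C 15) (C 34) (C 36)
    (hv 15 34 t1) (hv 15 36 t2) (hv 34 36 t3)
  let f : ℕ → Fin 4 := fun k => if h : k < 48 then σ (C ⟨k, h⟩) else 0
  have hf : ∀ v w, v < 48 → (nb v).testBit w = true → f v ≠ f w := by
    intro v w hvn hw
    have hwn : w < 48 := by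
      by_contra hcon
      rw [not_lt] at hcon
      have h1 : nb v < 2 ^ w :=
        lt_of_lt_of_le (nb_lt ⟨v, hvn⟩) (Nat.pow_le_pow_right (by norm_num) hcon)
      rw [Nat.testBit_lt_two_pow h1] at hw
      exact Bool.false_ne_true hw
    simp only [f, dif_pos hvn, dif_pos hwn]
    intro he
    exact hv ⟨v, hvn⟩ ⟨w, hwn⟩ hw (σ.injective he)
  have f0 : f 15 = 0 := s0
  have f1 : f 34 = 1 := s1
  have f2 : f 36 = 2 := s2
  refine chk_sound f hf cert _ _ _ _ cert_ok ?_ ?_ ?_ ?_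
  · intro w hw; rw [← f0]; exact (hf 15 w (by norm_num) hw).symm
  · intro w hw; rw [← f1]; exact (hf 34 w (by norm_num) hw).symm
  · intro w hw; rw [← f2]; exact (hf 36 w (by norm_num) hw).symm
  · intro w hw; simp at hw

/-- The points. -/
noncomputable def pt : Fin 48 ↪ ℝ × ℝ where
  toFun i := ((X i : ℝ), (Y i : ℝ))
  inj' := by
    intro v w h
    simp only [Prod.mk.injEq, Int.cast_inj] at h
    exact XY_inj v w h.1 h.2

/-- There is a centrally symmetric compact convex set `K` with nonempty interior in the plane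
(the unit ball of a norm, whose boundary is the curve `C`) and a finite set `V` of exactly 48
points with a graph on `V` all of whose edges join points at `K`-distance exactly `1`, such that
the chromatic number of the graph is `5`. -/
theorem result :
    ∃ K : Set (ℝ × ℝ), IsCompact K ∧ Convex ℝ K ∧ (interior K).Nonempty ∧ (∀ p ∈ K, -p ∈ K) ∧
      ∃ (V : Finset (ℝ × ℝ)) (G : SimpleGraph V), V.card = 48 ∧
        (∀ x y : V, G.Adj x y → gauge K ((x : ℝ × ℝ) - (y : ℝ × ℝ)) = 1) ∧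
        G.chromaticNumber = 5 := by
  refine ⟨oct, isCompact_oct, convex_oct, interior_oct, neg_mem_oct, Finset.univ.map pt, ?_⟩
  have hbij : Function.Bijective
      (fun i : Fin 48 => (⟨pt i, by simp⟩ : (Finset.univ.map pt : Finset (ℝ × ℝ)))) := by
    constructor
    · intro i j h
      exact pt.injective (congrArg Subtype.val h)
    · rintro ⟨p, hp⟩
      rw [Finset.mem_map] at hp
      obtain ⟨i, -, rfl⟩ := hp
      exact ⟨i, rfl⟩
  let e : Fin 48 ≃ (Finset.univ.map pt : Finset (ℝ × ℝ)) := Equiv.ofBijective _ hbij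
  have he : ∀ i, ((e i : (Finset.univ.map pt : Finset (ℝ × ℝ))) : ℝ × ℝ) = pt i := fun i => rfl
  refine ⟨H.map e.toEmbedding, by simp, ?_, ?_⟩
  · rintro x y h
    rw [SimpleGraph.map_adj] at h
    obtain ⟨u, v, huv, rfl, rfl⟩ := h
    have hd := nb_dist u v huv
    rw [Equiv.coe_toEmbedding, he, he]
    have c1 : |(pt u - pt v).1| = ((|X u - X v| : ℤ) : ℝ) := by
      rw [Int.cast_abs, Int.cast_sub]; rfl
    have c2 : |(pt u - pt v).2| = ((|Y u - Y v| : ℤ) : ℝ) := by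
      rw [Int.cast_abs, Int.cast_sub]; rfl
    obtain ⟨⟨d1, d2, d3⟩, d4⟩ := hd
    refine gauge_eq_one_of _ ⟨?_, ?_, ?_⟩ ?_
    · rw [c1]; exact_mod_cast d1
    · rw [c2]; exact_mod_cast d2
    · rw [c1, c2]; exact_mod_cast d3
    · rw [c1, c2]
      rcases d4 with d4 | d4 | d4
      · left; exact_mod_cast d4
      · right; left; exact_mod_cast d4
      · right; right; exact_mod_cast d4
  · have iso : H ≃g H.map e.toEmbedding := SimpleGraph.Iso.map e H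
    have h5 : (H.map e.toEmbedding).Colorable 5 := H_colorable_five.of_hom iso.symm.toHom
    have h4 : ¬ (H.map e.toEmbedding).Colorable 4 := fun h =>
      H_not_colorable_four (h.of_hom iso.toHom)
    have := (SimpleGraph.chromaticNumber_eq_iff_colorable_not_colorable
      (G := H.map e.toEmbedding) (n := 4)).2 ⟨h5, h4⟩
    rw [this]
    norm_num

end Pool.Agent.Results.MP_a2d1c1_co.OctagonFiveChromatic
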